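import Pool.Agent.Helper79_HMC.Stmts
import Pool.Agent.Helper79_HMC.Tab

/-!
# Squad HMC, module TBC: the number of satisfying assignments of the tableau formula
-/

set_option autoImplicit false

namespace Pool.Agent.HMC.H34

open Pool.Agent.Common_CookLevin

section

variable {Col : Type} [Fintype Col]

/-- at most one colour -/
def Amo (Col : Type) [Fintype Col] (val : ℕ → Bool) (q : ℕ) : Prop :=
  ∀ a b : Col, Has val q a → Has val q b → a = b

theorem idx_lt (q n : ℕ) (a : Col) (h : q < n) : idx q a < Fintype.card Col * n := by
  unfold idx
  have h1 := (Fintype.equivFin Col a).isLt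
  calc Fintype.card Col * q + (Fintype.equivFin Col a : ℕ)
      < Fintype.card Col * q + Fintype.card Col := by omega
    _ = Fintype.card Col * (q + 1) := by ring
    _ ≤ Fintype.card Col * n := Nat.mul_le_mul_left _ h

theorem sat_amo (val : ℕ → Bool) (up uw um c p m M : ℕ) :
    (∀ C ∈ tev p m M (amo Col up uw um c), Sat val C) ↔
      Amo Col val (up * p + uw * (m + 1) + um * M + c) := by
  classical
  rw [tev, amo, List.map_map, List.forall_mem_map]
  constructor
  · intro h a b ha hb
    by_contra hne
    have h1 := h (a, b) (by simp [hne])
    unfold Has at ha hb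
    simp [Sat, clit_ev, ha, hb] at h1
  · intro h x hx
    have hne : x.1 ≠ x.2 := by simpa using hx
    by_cases ha : Has val (up * p + uw * (m + 1) + um * M + c) x.1
    · have hb : ¬ Has val (up * p + uw * (m + 1) + um * M + c) x.2 := fun hb => hne (h _ _ ha hb)
      unfold Has at hb
      simp only [Bool.not_eq_true] at hb
      refine ⟨((clit false up uw um c x.2).ev p m M), by simp, ?_⟩
      rw [clit_ev]
      exact hb
    · unfold Has at ha
      simp only [Bool.not_eq_true] at ha
      refine ⟨((clit false up uw um c x.1).ev p m M), by simp, ?_⟩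
      rw [clit_ev]
      exact ha

/-- all cells are before `n` -/
def BT (Col : Type) [Fintype Col] (n p m M : ℕ) (T : List (List LLit)) : Prop :=
  ∀ C ∈ T, ∀ l ∈ C, (l.ev p m M).1 < Fintype.card Col * n

theorem BT.app {n p m M : ℕ} {T T' : List (List LLit)} (h : BT Col n p m M T)
    (h' : BT Col n p m M T') : BT Col n p m M (T ++ T') := by
  intro C hC
  rcases List.mem_append.1 hC with hC | hC
  · exact h C hC
  · exact h' C hC

theorem BT.cons {n p m M : ℕ} {C : List LLit} {T : List (List LLit)}
    (h : ∀ l ∈ C, (l.ev p m M).1 < Fintype.card Col * n)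
    (h' : BT Col n p m M T) : BT Col n p m M (C :: T) := by
  intro C' hC
  rcases List.mem_cons.1 hC with rfl | hC
  · exact h
  · exact h' C' hC

theorem clit_lt {n p m M : ℕ} (s : Bool) (up uw um c : ℕ) (a : Col)
    (h : up * p + uw * (m + 1) + um * M + c < n) :
    ((clit s up uw um c a).ev p m M).1 < Fintype.card Col * n := by
  rw [clit_ev]
  exact idx_lt _ _ _ h

theorem BT.amo {n p m M up uw um c : ℕ} (h : up * p + uw * (m + 1) + um * M + c < n) :
    BT Col n p m M (amo Col up uw um c) := by
  classical
  intro C hC l hl
  unfold HMC.amo at hC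
  obtain ⟨x, -, rfl⟩ := List.mem_map.1 hC
  simp only [List.mem_cons, List.not_mem_nil, or_false] at hl
  rcases hl with rfl | rfl
  · exact clit_lt _ _ _ _ _ _ h
  · exact clit_lt _ _ _ _ _ _ h

theorem BT.tev {n p m M : ℕ} {T : List (List LLit)} (h : BT Col n p m M T) :
    ∀ C ∈ tev p m M T, ∀ l ∈ C, l.1 < Fintype.card Col * n := by
  intro C hC l hl
  unfold Common_CookLevin.tev at hC
  obtain ⟨C', hC', rfl⟩ := List.mem_map.1 hC
  obtain ⟨l', hl', rfl⟩ := List.mem_map.1 hl
  exact h C' hC' l' hl'

theorem bt_head (dummy start : Col) (Acc : Set Col) (m M : ℕ) :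
    BT Col (m + M + 2) 0 m M (xHead dummy start Acc) := by
  unfold xHead
  refine (BT.app ?_ (BT.amo (by omega))).app (BT.amo (by omega))
  unfold tHead
  refine BT.cons ?_ (BT.cons ?_ ?_)
  · intro l hl
    simp only [List.mem_cons, List.not_mem_nil, or_false] at hl
    subst hl
    exact clit_lt _ _ _ _ _ _ (by omega)
  · intro l hl
    simp only [List.mem_cons, List.not_mem_nil, or_false] at hl
    subst hl
    exact clit_lt _ _ _ _ _ _ (by omega)
  · intro C hC l hl
    obtain ⟨a, -, rfl⟩ := List.mem_map.1 hC
    simp only [List.mem_cons, List.not_mem_nil, or_false] at hl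
    subst hl
    exact clit_lt _ _ _ _ _ _ (by omega)

theorem bt_row (blank : Col) (ini gs : Bool → Col) (m M j : ℕ) (hj : j < m)
    (x : (Bool ⊕ Unit) ⊕ Unit) : BT Col (m + M + 2) j m M (xRow blank ini gs x) := by
  rcases x with (b | _) | _
  · unfold xRow
    refine BT.cons ?_ (BT.amo (by omega))
    intro l hl
    simp only [List.mem_cons, List.not_mem_nil, or_false] at hl
    subst hl
    exact clit_lt _ _ _ _ _ _ (by omega)
  · unfold xRow
    refine BT.cons ?_ (BT.amo (by omega))
    intro l hl
    simp only [List.mem_cons, List.not_mem_nil, or_false] at hl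
    rcases hl with rfl | rfl
    · exact clit_lt _ _ _ _ _ _ (by omega)
    · exact clit_lt _ _ _ _ _ _ (by omega)
  · unfold xRow
    refine BT.cons ?_ (BT.amo (by omega))
    intro l hl
    simp only [List.mem_cons, List.not_mem_nil, or_false] at hl
    subst hl
    exact clit_lt _ _ _ _ _ _ (by omega)

theorem bt_rule (F : Col → Col → Col → Col → Col) (m M p : ℕ) (hp : p < M) :
    BT Col (m + M + 2) p m M (xRule F) := by
  unfold xRule
  refine BT.app ?_ (BT.amo (by omega))
  intro C hC l hl
  unfold tRule at hC
  obtain ⟨x, -, rfl⟩ := List.mem_map.1 hC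
  simp only [List.mem_cons, List.not_mem_nil, or_false] at hl
  rcases hl with rfl | rfl | rfl | rfl | rfl
  · exact clit_lt _ _ _ _ _ _ (by omega)
  · exact clit_lt _ _ _ _ _ _ (by omega)
  · exact clit_lt _ _ _ _ _ _ (by omega)
  · exact clit_lt _ _ _ _ _ _ (by omega)
  · exact clit_lt _ _ _ _ _ _ (by omega)

theorem sat_append (val : ℕ → Bool) (p m M : ℕ) (T T' : List (List LLit)) :
    (∀ C ∈ tev p m M (T ++ T'), Sat val C) ↔
      (∀ C ∈ tev p m M T, Sat val C) ∧ ∀ C ∈ tev p m M T', Sat val C := by
  unfold Common_CookLevin.tev
  rw [List.map_append]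
  simp only [List.mem_append, or_imp, forall_and]

theorem sat_cons (val : ℕ → Bool) (p m M : ℕ) (C : List LLit) (T : List (List LLit)) :
    (∀ C' ∈ tev p m M (C :: T), Sat val C') ↔
      Sat val (C.map (LLit.ev p m M)) ∧ ∀ C' ∈ tev p m M T, Sat val C' := by
  unfold Common_CookLevin.tev
  rw [List.map_cons]
  simp only [List.mem_cons, forall_eq_or_imp]

theorem form_sat_iff (val : ℕ → Bool) (dummy start blank : Col) (ini gs : Bool → Col)
    (Acc : Set Col) (F : Col → Col → Col → Col → Col) (w : List Bool) (N T M : ℕ) :
    (∀ C ∈ xForm dummy start blank ini gs Acc F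
      ((twoPad w N T).map Sum.inl ++ List.replicate M (Sum.inr ())), Sat val C) ↔
    ((Has val 0 dummy ∧ Has val 1 start ∧
      ∀ a, a ∉ Acc → ¬ Has val (w.length + N + T + 1 + M) a) ∧
      Amo Col val 0 ∧ Amo Col val 1) ∧
    ((∀ (j : ℕ) (h : j < w.length), Has val (j + 2) (ini w[j]) ∧ Amo Col val (j + 2)) ∧
      (∀ j, w.length ≤ j → j < w.length + N →
        (Has val (j + 2) (gs false) ∨ Has val (j + 2) (gs true)) ∧ Amo Col val (j + 2)) ∧
      (∀ j, w.length + N ≤ j → j < w.length + N + T →
        Has val (j + 2) blank ∧ Amo Col val (j + 2))) ∧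
    (∀ p < M, (∀ a b d e, Has val p a → Has val (p + 1) b → Has val (p + 2) d →
      Has val (p + (w.length + N + T + 1)) e →
        Has val (p + (w.length + N + T + 1) + 1) (F a b d e)) ∧
      Amo Col val (p + (w.length + N + T + 1) + 1)) := by
  have r1 : ∀ (j m : ℕ) (b : Bool),
      (∀ C ∈ tev j m M (xRow blank ini gs (.inl (.inl b))), Sat val C) ↔
      Has val (j + 2) (ini b) ∧ Amo Col val (j + 2) := by
    intro j m b
    unfold xRow
    rw [sat_cons, sat_amo]
    simp [Sat, clit_ev, Has]
  have r2 : ∀ (j m : ℕ),
      (∀ C ∈ tev j m M (xRow blank ini gs (.inl (.inr ()))), Sat val C) ↔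
      (Has val (j + 2) (gs false) ∨ Has val (j + 2) (gs true)) ∧ Amo Col val (j + 2) := by
    intro j m
    unfold xRow
    rw [sat_cons, sat_amo]
    simp [Sat, clit_ev, Has]
  have r3 : ∀ (j m : ℕ),
      (∀ C ∈ tev j m M (xRow blank ini gs (.inr ())), Sat val C) ↔
      Has val (j + 2) blank ∧ Amo Col val (j + 2) := by
    intro j m
    unfold xRow
    rw [sat_cons, sat_amo]
    simp [Sat, clit_ev, Has]
  unfold xForm
  rw [forall_mem_formula]
  refine and_congr ?_ (and_congr ?_ ?_)
  · unfold xHead
    rw [sat_append, sat_append, sat_hd, sat_amo, sat_amo, twoPad_length, and_assoc]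
    simp
  · constructor
    · intro h
      refine ⟨?_, ?_, ?_⟩
      · intro j hj
        have hj2 : j < (twoPad w N T).length := by rw [twoPad_length]; omega
        have h1 := h j hj2
        rw [twoPad_ini w N T j hj hj2, r1] at h1
        exact h1
      · intro j hj hj1
        have hj2 : j < (twoPad w N T).length := by rw [twoPad_length]; omega
        have h1 := h j hj2
        rw [twoPad_guess w N T j hj hj1 hj2, r2] at h1
        exact h1
      · intro j hj hj1
        have hj2 : j < (twoPad w N T).length := by rw [twoPad_length]; omega
        have h1 := h j hj2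
        rw [twoPad_blank w N T j hj hj2, r3] at h1
        exact h1
    · rintro ⟨h1, h2, h3⟩ j hj
      have hj2 := hj
      rw [twoPad_length] at hj2
      by_cases c1 : j < w.length
      · rw [twoPad_ini w N T j c1 hj, r1]
        exact h1 j c1
      · by_cases c2 : j < w.length + N
        · rw [twoPad_guess w N T j (by omega) c2 hj, r2]
          exact h2 j (by omega) c2
        · rw [twoPad_blank w N T j (by omega) hj, r3]
          exact h3 j (by omega) hj2
  · refine forall_congr' fun p => forall_congr' fun _ => ?_
    unfold xRule
    rw [sat_append, sat_rule, sat_amo, twoPad_length]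
    simp [add_assoc, add_comm, add_left_comm]

theorem form_bdd (dummy start blank : Col) (ini gs : Bool → Col)
    (Acc : Set Col) (F : Col → Col → Col → Col → Col) (w : List Bool) (N T M : ℕ) :
    Bdd (Fintype.card Col * (w.length + N + T + M + 2)) (xForm dummy start blank ini gs Acc F
      ((twoPad w N T).map Sum.inl ++ List.replicate M (Sum.inr ()))) := by
  unfold Bdd xForm
  rw [forall_mem_formula, ← twoPad_length]
  refine ⟨(bt_head dummy start Acc _ M).tev, ?_, ?_⟩
  · intro j hj
    exact (bt_row blank ini gs _ M j hj _).tev
  · intro p hp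
    exact (bt_rule F _ M p hp).tev

theorem idx_div (q : ℕ) (a : Col) : idx q a / Fintype.card Col = q := by
  have hC : 0 < Fintype.card Col := Fintype.card_pos_iff.2 ⟨a⟩
  unfold idx
  rw [Nat.mul_add_div hC, Nat.div_eq_of_lt (Fin.isLt _), Nat.add_zero]

theorem idx_mod (q : ℕ) (a : Col) : idx q a % Fintype.card Col = Fintype.equivFin Col a := by
  unfold idx
  rw [Nat.mul_add_mod, Nat.mod_eq_of_lt (Fin.isLt _)]

theorem idx_inj {q q' : ℕ} {a a' : Col} (h : idx q a = idx q' a') : q = q' ∧ a = a' := by
  refine ⟨?_, ?_⟩
  · rw [← idx_div q a, h, idx_div]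
  · have h1 := idx_mod q a
    rw [h, idx_mod] at h1
    exact (Fintype.equivFin Col).injective (Fin.ext h1.symm)

theorem idx_surj (dummy : Col) (i : ℕ) : ∃ q, ∃ a : Col, idx q a = i := by
  have hC : 0 < Fintype.card Col := Fintype.card_pos_iff.2 ⟨dummy⟩
  refine ⟨i / Fintype.card Col, (Fintype.equivFin Col).symm ⟨i % Fintype.card Col,
    Nat.mod_lt _ hC⟩, ?_⟩
  unfold idx
  rw [Equiv.apply_symm_apply]
  exact Nat.div_add_mod i (Fintype.card Col)

open Classical in
/-- the assignment of a colouring -/
noncomputable def asg (n : ℕ) (c : ℕ → Col) : List Bool :=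
  (List.range (Fintype.card Col * n)).map fun i => decide (∃ q, idx q (c q) = i)

theorem asg_length (n : ℕ) (c : ℕ → Col) : (asg n c).length = Fintype.card Col * n := by
  simp [asg]

theorem asg_get {n : ℕ} (c : ℕ → Col) {q : ℕ} (hq : q < n) (a : Col) (b : Bool) :
    (asg n c)[idx q a]? = some b ↔ (c q = a ↔ b = true) := by
  classical
  have h1 := idx_lt q n a hq
  unfold asg
  rw [List.getElem?_map, List.getElem?_range h1]
  simp only [Option.map_some, Option.some.injEq]
  have h2 : (∃ q', idx q' (c q') = idx q a) ↔ c q = a := by
    constructor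
    · rintro ⟨q', h⟩
      obtain ⟨rfl, h'⟩ := idx_inj h
      exact h'
    · rintro rfl
      exact ⟨q, rfl⟩
  by_cases h3 : c q = a
  · rw [decide_eq_true (h2.2 h3)]
    simp only [h3, true_iff]
    exact eq_comm
  · rw [decide_eq_false (fun h => h3 (h2.1 h))]
    simp only [h3, false_iff]
    cases b <;> simp

end

theorem tbc : TbcStmt := by
  intro Col _ dummy start blank ini gs Acc F w N T M hW hT hgs
  classical
  refine ⟨form_bdd dummy start blank ini gs Acc F w N T M, ?_⟩
  have hbdd := form_bdd dummy start blank ini gs Acc F w N T M
  unfold nSat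
  set m := w.length + N + T with hm
  set Φ := xForm dummy start blank ini gs Acc F
      ((twoPad w N T).map Sum.inl ++ List.replicate M (Sum.inr ())) with hΦ
  let col : List Bool → ℕ → Col := fun cc => tabSeq (m + 1) hW F
    (firstRow dummy start blank ini gs w cc)
  let f : List Bool → List Bool := fun cc => asg (m + M + 2) (col cc)
  -- satisfaction in terms of valuations
  have hsat : ∀ b : List Bool, b.length = Fintype.card Col * (m + M + 2) →
      ((∀ C ∈ Φ, ∃ l ∈ C, b[l.1]? = some l.2) ↔ ∀ C ∈ Φ, Sat (fun i => (b[i]?).getD false) C) := by
    intro b hb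
    refine forall_congr' fun C => forall_congr' fun hC => exists_congr fun l =>
      and_congr_right fun hl => ?_
    have h1 : l.1 < b.length := by rw [hb]; exact hbdd C hC l hl
    change b[l.1]? = some l.2 ↔ (b[l.1]?).getD false = l.2
    rw [List.getElem?_eq_getElem h1]
    simp
  have hrow : ∀ cc q, q ≤ m + 1 → col cc q = firstRow dummy start blank ini gs w cc q :=
    fun cc q hq => tabSeq_le hW F _ hq
  have himg : {b : List Bool | b.length = Fintype.card Col * (m + M + 2) ∧
      ∀ C ∈ Φ, ∃ l ∈ C, b[l.1]? = some l.2} = f '' {cc : List Bool | cc.length = N ∧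
        tabSeq (m + 1) hW F (firstRow dummy start blank ini gs w cc) (m + 1 + M) ∈ Acc} := by
    ext b
    simp only [Set.mem_ofPred_eq, Set.mem_image]
    constructor
    · rintro ⟨hb, hs⟩
      rw [hsat b hb, hΦ, form_sat_iff] at hs
      obtain ⟨⟨⟨h0, h1, hacc⟩, a0, a1⟩, ⟨hini, hguess, hblank⟩, hrule⟩ := hs
      have hamo : ∀ q, q < m + M + 2 → Amo Col (fun i => (b[i]?).getD false) q := by
        intro q hq
        match q, hq with
        | 0, _ => exact a0
        | 1, _ => exact a1
        | j + 2, hq =>
          by_cases c1 : j < w.length
          · exact (hini j c1).2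
          · by_cases c2 : j < w.length + N
            · exact (hguess j (by omega) c2).2
            · by_cases c3 : j < w.length + N + T
              · exact (hblank j (by omega) c3).2
              · have := (hrule (j - m) (by omega)).2
                rw [← hm] at this
                have e : j - m + (m + 1) + 1 = j + 2 := by omega
                rwa [e] at this
      let cc : List Bool := List.ofFn fun j : Fin N =>
        decide (Has (fun i => (b[i]?).getD false) (w.length + j.val + 2) (gs true))
      have hc : cc.length = N := by simp [cc]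
      have key : ∀ p, p ≤ m + 1 + M → Has (fun i => (b[i]?).getD false) p (col cc p) := by
        intro p
        induction p using Nat.strong_induction_on with
        | _ p ih =>
          intro hp
          by_cases c0 : p ≤ m + 1
          · rw [hrow cc p c0]
            match p, c0 with
            | 0, _ => exact h0
            | 1, _ => exact h1
            | q + 2, c0 =>
              rw [firstRow_add_two]
              by_cases c1 : q < w.length
              · rw [dif_pos c1]
                exact (hini q c1).1
              · rw [dif_neg c1]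
                by_cases c2 : q - w.length < N
                · have e1 : (cc : List Bool)[q - w.length]? = some (decide (Has (fun i => (b[i]?).getD false)
                      (w.length + (q - w.length) + 2) (gs true))) := by
                    rw [List.getElem?_eq_getElem (by rw [hc]; exact c2), List.getElem_ofFn]
                  rw [e1]
                  have e2 : w.length + (q - w.length) + 2 = q + 2 := by omega
                  rw [e2]
                  simp only [Option.map_some, Option.getD_some]
                  by_cases c3 : Has (fun i => (b[i]?).getD false) (q + 2) (gs true)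
                  · rw [decide_eq_true c3]
                    exact c3
                  · rw [decide_eq_false c3]
                    exact ((hguess q (by omega) (by omega)).1).resolve_right c3
                · have e1 : (cc : List Bool)[q - w.length]? = none := by
                    rw [List.getElem?_eq_none_iff, hc]
                    omega
                  rw [e1]
                  exact (hblank q (by omega) (by omega)).1
          · obtain ⟨p', rfl⟩ : ∃ p', p = p' + (m + 1) + 1 := ⟨p - (m + 1) - 1, by omega⟩
            change Has _ _ (tabSeq (m + 1) hW F _ _)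
            rw [tabSeq_rec]
            exact (hrule p' (by omega)).1 _ _ _ _ (ih _ (by omega) (by omega))
              (ih _ (by omega) (by omega)) (ih _ (by omega) (by omega))
              (ih _ (by omega) (by omega))
      refine ⟨cc, ⟨hc, ?_⟩, ?_⟩
      · by_contra hne
        exact hacc _ hne (key _ (le_refl _))
      · refine List.ext_getElem? fun i => ?_
        by_cases hi : i < Fintype.card Col * (m + M + 2)
        · obtain ⟨q, a, rfl⟩ := idx_surj dummy i
          have hq : q < m + M + 2 := by
            have h5 := Nat.div_lt_of_lt_mul hi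
            rwa [idx_div] at h5
          have hbi : b[idx q a]? = some ((b[idx q a]?).getD false) := by
            rw [List.getElem?_eq_getElem (by rw [hb]; exact hi)]
            rfl
          rw [hbi]
          change (asg (m + M + 2) (col cc))[idx q a]? = _
          rw [asg_get (col cc) hq a]
          have hk := key q (by omega)
          constructor
          · rintro rfl
            exact hk
          · intro h
            exact hamo q hq _ _ hk h
        · have e1 : (f cc)[i]? = none := by
            rw [List.getElem?_eq_none_iff]
            change (asg (m + M + 2) (col cc)).length ≤ i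
            rw [asg_length]
            omega
          have e2 : b[i]? = none := by
            rw [List.getElem?_eq_none_iff, hb]
            omega
          rw [e1, e2]
    · rintro ⟨cc, ⟨hc, hfin⟩, rfl⟩
      have hlen : (f cc).length = Fintype.card Col * (m + M + 2) := asg_length _ _
      refine ⟨hlen, ?_⟩
      rw [hsat _ hlen, hΦ, form_sat_iff]
      have hval : ∀ q, q < m + M + 2 → ∀ a, Has (fun i => ((f cc)[i]?).getD false) q a ↔
          col cc q = a := by
        intro q hq a
        unfold Has
        have h1 := (asg_get (col cc) hq a true)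
        have h2 := (asg_get (col cc) hq a false)
        change ((f cc)[idx q a]?).getD false = true ↔ _
        constructor
        · intro h
          have : (asg (m + M + 2) (col cc))[idx q a]? = some true := by
            change (f cc)[idx q a]? = some true
            cases h3 : (f cc)[idx q a]? with
            | none => rw [h3] at h; simp at h
            | some b => rw [h3] at h; simpa using h
          simpa using h1.1 this
        · intro h
          have : (asg (m + M + 2) (col cc))[idx q a]? = some true := h1.2 (by simp [h])
          change ((asg (m + M + 2) (col cc))[idx q a]?).getD false = true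
          rw [this]
          rfl
      have hamo : ∀ q, q < m + M + 2 → Amo Col (fun i => ((f cc)[i]?).getD false) q := by
        intro q hq a b ha hb
        rw [hval q hq] at ha hb
        rw [← ha, hb]
      refine ⟨⟨⟨?_, ?_, ?_⟩, hamo 0 (by omega), hamo 1 (by omega)⟩, ⟨?_, ?_, ?_⟩, ?_⟩
      · rw [hval 0 (by omega)]
        exact hrow cc 0 (by omega)
      · rw [hval 1 (by omega)]
        exact hrow cc 1 (by omega)
      · intro a ha h
        rw [← hm, hval _ (by omega)] at h
        rw [← h] at ha
        exact ha hfin
      · intro j hj
        refine ⟨?_, hamo _ (by omega)⟩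
        rw [hval _ (by omega), hrow _ _ (by omega), firstRow_add_two, dif_pos hj]
      · intro j hj hj1
        refine ⟨?_, hamo _ (by omega)⟩
        rw [hval _ (by omega), hval _ (by omega), hrow _ _ (by omega), firstRow_add_two,
          dif_neg (by omega), List.getElem?_eq_getElem (by omega : j - w.length < cc.length)]
        simp only [Option.map_some, Option.getD_some]
        cases cc[j - w.length]
        · exact Or.inl rfl
        · exact Or.inr rfl
      · intro j hj hj1
        refine ⟨?_, hamo _ (by omega)⟩
        rw [hval _ (by omega), hrow _ _ (by omega), firstRow_add_two, dif_neg (by omega)]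
        have : cc[j - w.length]? = none := by
          rw [List.getElem?_eq_none_iff]
          omega
        rw [this]
        rfl
      · intro p hp
        rw [← hm]
        refine ⟨?_, hamo _ (by omega)⟩
        intro a b d e ha hb hd he
        rw [hval _ (by omega)] at ha hb hd he ⊢
        rw [← ha, ← hb, ← hd, ← he]
        exact tabSeq_rec hW F _ p
  rw [himg]
  refine Set.InjOn.ncard_image ?_
  rintro cc ⟨hc, -⟩ cc' ⟨hc', -⟩ hcc
  refine List.ext_getElem (by rw [hc, hc']) fun j hj hj' => ?_
  have h1 : ∀ a, col cc (w.length + j + 2) = a ↔ col cc' (w.length + j + 2) = a := by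
    intro a
    have h2 := asg_get (n := m + M + 2) (col cc) (q := w.length + j + 2) (by omega) a true
    have h3 := asg_get (n := m + M + 2) (col cc') (q := w.length + j + 2) (by omega) a true
    have h4 : asg (m + M + 2) (col cc) = asg (m + M + 2) (col cc') := hcc
    rw [h4] at h2
    simpa using h2.symm.trans h3
  have h5 := (h1 _).1 rfl
  have h6 : ∀ cc'' : List Bool, (hc'' : cc''.length = N) →
      col cc'' (w.length + j + 2) = gs (cc''[j]'(by omega)) := by
    intro cc'' hc''
    rw [hrow _ _ (by omega), firstRow_add_two, dif_neg (by omega)]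
    have e : w.length + j - w.length = j := by omega
    rw [e, List.getElem?_eq_getElem (by omega : j < cc''.length)]
    rfl
  rw [h6 cc hc, h6 cc' hc'] at h5
  have inj : ∀ x y : Bool, gs x = gs y → x = y := by
    intro x y hxy
    cases x <;> cases y
    · rfl
    · exact absurd hxy hgs
    · exact absurd hxy.symm hgs
    · rfl
  exact inj _ _ h5.symm

end Pool.Agent.HMC.H34
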