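import Pool.Agent.Helper79_HMC.Stmts
import Pool.Agent.Helper79_HMC.Tab

/-!
# Squad HMC, module TBP: the formula is computable in polynomial time
-/

set_option autoImplicit false

namespace Pool.Agent.HMC.H34

open Function Pool.Agent.Common_CookLevin

theorem prints_formula {A : Type} [Fintype A] (hd : List (List LLit)) (atL : A → List (List LLit))
    (atR : List (List LLit)) : Prints (X := Fin 3) {0} (fun e : Fin 3 → List (A ⊕ Unit) =>
      encodeCNF (formula hd atL atR (e 0))) := by
  have h1 : Prints (X := Fin 3) {0} (fun e : Fin 3 → List (A ⊕ Unit) =>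
      encodeCNF (tev 0 ((e 0).countP Sum.isLeft) ((e 0).countP Sum.isRight) hd)) := by
    refine (prints_tev (A := A) {0} (by simp) hd).congr ?_
    intro e he
    rw [he 1 (by simp)]
    rfl
  have h2 : ∀ (c : A ⊕ Unit → Bool) (k : A ⊕ Unit → List (List LLit)), Prints (X := Fin 3) {0}
      (fun e : Fin 3 → List (A ⊕ Unit) => encodeCNF (eachWord c (fun x u => tev u.length
        ((e 0).countP Sum.isLeft) ((e 0).countP Sum.isRight) (k x)) [] (e 0))) := by
    intro c k
    refine (Prints.each (s := {0}) (y := 0) (x := 1) (by decide) (by simp) c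
      (fun x => prints_tev (A := A) (insert 1 {0}) (by simp) (k x))).congr ?_
    intro e _
    rw [encodeCNF_eachWord]
    have h0 : ∀ u : List (A ⊕ Unit), update e 1 u 0 = e 0 :=
      fun u => Function.update_of_ne (by decide) _ _
    simp only [Function.update_self, h0]
  refine (h1.seq ((h2 Sum.isLeft (Sum.elim atL (fun _ => []))).seq
    (h2 Sum.isRight (Sum.elim (fun _ => []) (fun _ => atR))))).congr ?_
  intro e _
  unfold formula
  rw [encodeCNF_append, encodeCNF_append]

theorem tbp : TbpStmt := by
  intro Col _ dummy start blank ini gs Acc F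
  have h : Prints (X := Fin 3) {0}
      (fun e : Fin 3 → List (((Bool ⊕ Unit) ⊕ Unit) ⊕ Unit) =>
      encI (Fintype.card Col * ((e 0).length + 2)) (xForm dummy start blank ini gs Acc F (e 0))) := by
    refine (((Prints.flatMap 0 2 (by decide) (by simp)
      (fun _ => List.replicate (Fintype.card Col) CNFLetter.tick)).seq
      (Prints.word _ (List.replicate (Fintype.card Col * 2) CNFLetter.tick))).seq
      (prints_formula (xHead dummy start Acc) (xRow blank ini gs) (xRule F))).congr ?_
    intro e _
    rw [flatMap_replicate_const, ← List.replicate_add]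
    unfold encI xForm
    congr 2
    ring
  simpa using h.polyFn

end Pool.Agent.HMC.H34
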